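import Mathlib
import Pool.Agent.Work.MP_ce2d68_st.Interface

set_option autoImplicit false

open Polynomial Filter Topology
open scoped ComplexConjugate

namespace Pool.Agent.Work.MP_ce2d68_st.helper21

open Pool.Agent.Work.MP_ce2d68_st

/-- the polynomial `z ^ m * q (2 - z - 1 / z)` -/
noncomputable def arcQ (q : ℤ[X]) : ℤ[X] :=
  ∑ i ∈ Finset.range (q.natDegree + 1),
    C (q.coeff i) * (-(X - 1) ^ 2) ^ i * X ^ (q.natDegree - i)

theorem arcQ_ne_zero {q : ℤ[X]} (hq : q ≠ 0) : arcQ q ≠ 0 := by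
  intro h
  have h1 : (arcQ q).eval 0 = 0 := by rw [h, eval_zero]
  rw [arcQ, eval_finsetSum, Finset.sum_eq_single q.natDegree] at h1
  · have h2 : q.coeff q.natDegree * (-1 : ℤ) ^ q.natDegree = 0 := by
      have h3 := h1
      simp only [eval_mul, eval_C, eval_pow, eval_neg, eval_sub, eval_X, eval_one, Nat.sub_self,
        pow_zero, mul_one] at h3
      have h4 : (-(0 - 1 : ℤ) ^ 2) = -1 := by norm_num
      rwa [h4] at h3
    have h5 : q.coeff q.natDegree ≠ 0 := by
      rw [coeff_natDegree]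
      exact leadingCoeff_ne_zero.2 hq
    rcases mul_eq_zero.1 h2 with h6 | h6
    · exact h5 h6
    · exact absurd h6 (pow_ne_zero _ (by norm_num))
  · intro i hi hne
    have hi' : i ≤ q.natDegree := Nat.lt_succ_iff.1 (Finset.mem_range.1 hi)
    have h2 : q.natDegree - i ≠ 0 := by omega
    simp only [eval_mul, eval_pow, eval_X, zero_pow h2, mul_zero]
  · intro h2
    exact absurd (Finset.mem_range.2 (Nat.lt_succ_self _)) h2

theorem ev_arcQ (q : ℤ[X]) (z : ℂ) (hz : ‖z‖ = 1) :
    ‖ev (arcQ q) z‖ = |(q.map (Int.castRingHom ℝ)).eval (2 - 2 * z.re)| := by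
  have hz0 : z ≠ 0 := by
    rintro rfl
    rw [norm_zero] at hz
    exact zero_ne_one hz
  have hzz : z * conj z = 1 := by
    rw [Complex.mul_conj, Complex.normSq_eq_norm_sq, hz]
    norm_num
  have hre : z + conj z = ((2 * z.re : ℝ) : ℂ) := Complex.add_conj z
  set y : ℝ := 2 - 2 * z.re with hy
  have hyz : -(z - 1) ^ 2 = z * (y : ℂ) := by
    have h1 : (y : ℂ) = 2 - (z + conj z) := by
      rw [hre, hy]
      push_cast
      ring
    rw [h1]
    have h2 : z * (2 - (z + conj z)) = 2 * z - z * z - z * conj z := by ring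
    rw [h2, hzz]
    ring
  have h1 : ev (arcQ q) z = z ^ q.natDegree * ((q.map (Int.castRingHom ℝ)).eval y : ℝ) := by
    have h2 : ev (arcQ q) z = ∑ i ∈ Finset.range (q.natDegree + 1),
        (q.coeff i : ℂ) * (-(z - 1) ^ 2) ^ i * z ^ (q.natDegree - i) := by
      rw [ev, cp, arcQ, Polynomial.map_sum, eval_finsetSum]
      refine Finset.sum_congr rfl fun i _ => ?_
      simp
    rw [h2]
    have h3 : (q.map (Int.castRingHom ℝ)).eval y =
        ∑ i ∈ Finset.range (q.natDegree + 1), (q.coeff i : ℝ) * y ^ i := by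
      rw [eval_map, eval₂_eq_sum_range]
      simp
    rw [h3]
    push_cast
    rw [Finset.mul_sum]
    refine Finset.sum_congr rfl fun i hi => ?_
    have hi' : i ≤ q.natDegree := Nat.lt_succ_iff.1 (Finset.mem_range.1 hi)
    have h4 : z ^ q.natDegree = z ^ i * z ^ (q.natDegree - i) := by
      rw [← pow_add]
      congr 1
      omega
    rw [hyz, h4, mul_pow]
    ring
  rw [h1, norm_mul, norm_pow, hz, one_pow, one_mul, Complex.norm_real, Real.norm_eq_abs]

theorem stmt_ARC (hFEK : Stmt_FEK) : Stmt_ARC := by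
  intro θ h0 hpi
  have hcos1 : Real.cos θ < 1 := by
    have := Real.cos_lt_cos_of_nonneg_of_le_pi le_rfl hpi.le h0
    rwa [Real.cos_zero] at this
  have hcos2 : -1 < Real.cos θ := by
    have := Real.cos_lt_cos_of_nonneg_of_le_pi h0.le le_rfl hpi
    rwa [Real.cos_pi] at this
  obtain ⟨q, hq0, hq⟩ := hFEK (2 - 2 * Real.cos θ) (by linarith) (by linarith)
  refine ⟨arcQ q, arcQ_ne_zero hq0, fun z hz harg => ?_⟩
  rw [ev_arcQ q z hz]
  have hre : z.re = Real.cos z.arg := by
    have := Complex.norm_mul_cos_arg z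
    rw [hz, one_mul] at this
    exact this.symm
  have hcos : Real.cos θ ≤ Real.cos z.arg := by
    rw [← Real.cos_abs z.arg]
    exact Real.cos_le_cos_of_nonneg_of_le_pi (abs_nonneg _) hpi.le harg
  refine hq _ ?_ ?_
  · rw [hre]
    have := Real.cos_le_one z.arg
    linarith
  · rw [hre]
    linarith

end Pool.Agent.Work.MP_ce2d68_st.helper21
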