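import Mathlib
import Pool.Agent.Work.MP_ce2d68_st.Interface

set_option autoImplicit false

open Polynomial Filter Topology
open scoped ComplexConjugate

namespace Pool.Agent.Work.MP_ce2d68_st.helper21

open Pool.Agent.Work.MP_ce2d68_st

theorem lan_ev_sum (Q : ℤ[X]) (z : ℂ) :
    ev Q z = ∑ i ∈ Finset.range (Q.natDegree + 1), (Q.coeff i : ℂ) * z ^ i := by
  rw [ev, cp, eval_map, eval₂_eq_sum_range]
  simp

theorem lan_mem_rts {P : ℤ[X]} {a : ℂ} (ha : a ∈ rts P) : ev P a = 0 := by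
  rw [rts, Multiset.mem_toFinset] at ha
  exact (mem_roots'.1 ha).2

/-- `x ^ (k m) - 1 ≥ k (x ^ m - 1)` -/
theorem lan_pow_ge (x : ℝ) (hx : 1 ≤ x) (m k : ℕ) : k * (x ^ m - 1) ≤ x ^ (k * m) - 1 := by
  have h1 : 1 ≤ x ^ m := one_le_pow₀ hx
  have h2 := one_add_mul_le_pow (a := x ^ m - 1) (by linarith) k
  have h3 : x ^ (k * m) = (1 + (x ^ m - 1)) ^ k := by
    rw [add_sub_cancel, ← pow_mul, mul_comm]
  rw [h3]
  linarith

/-- growth of a polynomial which is small on an arc -/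
theorem lan_growth (θ : ℝ) (Q : ℤ[X])
    (hQ : ∀ z : ℂ, ‖z‖ = 1 → |z.arg| ≤ θ → ‖ev Q z‖ ≤ 1 / 2) :
    ∃ c : ℝ, 0 < c ∧ ∀ z : ℂ, z ≠ 0 → |z.arg| ≤ θ →
      ‖ev Q z‖ ≤ 1 / 2 * Real.exp (c * |Real.log ‖z‖|) := by
  set m := Q.natDegree with hm
  set A : ℝ := ∑ i ∈ Finset.range (m + 1), |(Q.coeff i : ℝ)| with hA
  have hA0 : 0 ≤ A := Finset.sum_nonneg fun _ _ => abs_nonneg _
  obtain ⟨k, hk⟩ := exists_nat_ge (2 * A)
  refine ⟨(k * m : ℕ) + 1, by positivity, fun z hz harg => ?_⟩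
  have hn : 0 < ‖z‖ := norm_pos_iff.2 hz
  set s := Real.log ‖z‖ with hs
  set u : ℂ := z / (‖z‖ : ℂ) with hu
  have hn' : (‖z‖ : ℂ) ≠ 0 := by exact_mod_cast hn.ne'
  have hzu : z = (‖z‖ : ℂ) * u := by
    rw [hu]
    field_simp
  have hu1 : ‖u‖ = 1 := by
    rw [hu, norm_div, Complex.norm_real, Real.norm_eq_abs, abs_of_pos hn, div_self hn.ne']
  have huarg : u.arg = z.arg := by
    conv_rhs => rw [hzu]
    exact (Complex.arg_real_mul u hn).symm
  have h1 : ‖ev Q u‖ ≤ 1 / 2 := hQ u hu1 (by rw [huarg]; exact harg)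
  set x : ℝ := Real.exp |s| with hx
  have hx1 : 1 ≤ x := Real.one_le_exp (abs_nonneg _)
  have hpow : ∀ i ≤ m, |‖z‖ ^ i - 1| ≤ x ^ m - 1 := by
    intro i hi
    have h2 : ‖z‖ ^ i = Real.exp (i * s) := by
      rw [mul_comm, Real.exp_mul, hs, Real.exp_log hn, Real.rpow_natCast]
    have h3 : x ^ m = Real.exp (m * |s|) := by
      rw [hx, ← Real.exp_nat_mul]
    have h4 : |(i : ℝ) * s| ≤ m * |s| := by
      rw [abs_mul, Nat.abs_cast]
      exact mul_le_mul_of_nonneg_right (by exact_mod_cast hi) (abs_nonneg _)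
    have h5 : Real.exp (i * s) ≤ Real.exp (m * |s|) :=
      Real.exp_le_exp.2 ((le_abs_self _).trans h4)
    have h6 : Real.exp (-(m * |s|)) ≤ Real.exp (i * s) :=
      Real.exp_le_exp.2 (by
        have := neg_abs_le ((i : ℝ) * s)
        linarith)
    have h7 : 2 ≤ Real.exp (m * |s|) + Real.exp (-(m * |s|)) := by
      have := Real.add_one_le_exp (m * |s|)
      have := Real.add_one_le_exp (-(m * |s|))
      linarith
    rw [h2, h3, abs_le]
    constructor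
    · linarith
    · linarith
  have hdiff : ‖ev Q z - ev Q u‖ ≤ A * (x ^ m - 1) := by
    rw [lan_ev_sum, lan_ev_sum, ← Finset.sum_sub_distrib, hA, Finset.sum_mul]
    refine (norm_sum_le _ _).trans (Finset.sum_le_sum fun i hi => ?_)
    have hi' : i ≤ m := Nat.lt_succ_iff.1 (Finset.mem_range.1 hi)
    have h2 : (Q.coeff i : ℂ) * z ^ i - (Q.coeff i : ℂ) * u ^ i =
        (Q.coeff i : ℂ) * (((‖z‖ ^ i - 1 : ℝ) : ℂ) * u ^ i) := by
      conv_lhs => rw [hzu]
      push_cast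
      ring
    rw [h2, norm_mul, norm_mul, norm_pow, hu1, one_pow, mul_one, Complex.norm_real,
      Real.norm_eq_abs, Complex.norm_intCast]
    exact mul_le_mul_of_nonneg_left (hpow i hi') (abs_nonneg _)
  have h2 : ‖ev Q z‖ ≤ 1 / 2 + A * (x ^ m - 1) := by
    have h3 : ‖ev Q z‖ ≤ ‖ev Q z - ev Q u‖ + ‖ev Q u‖ := by
      have := norm_add_le (ev Q z - ev Q u) (ev Q u)
      rwa [sub_add_cancel] at this
    linarith
  have h3 := lan_pow_ge x hx1 m k
  have h4 : A * (x ^ m - 1) ≤ 1 / 2 * (k * (x ^ m - 1)) := by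
    have h5 : 0 ≤ x ^ m - 1 := by
      have := one_le_pow₀ hx1 (n := m)
      linarith
    nlinarith
  have h5 : x ^ (k * m) ≤ Real.exp (((k * m : ℕ) + 1 : ℝ) * |s|) := by
    rw [hx, ← Real.exp_nat_mul]
    refine Real.exp_le_exp.2 (mul_le_mul_of_nonneg_right (by linarith) (abs_nonneg _))
  calc ‖ev Q z‖ ≤ 1 / 2 + A * (x ^ m - 1) := h2
    _ ≤ 1 / 2 + 1 / 2 * (x ^ (k * m) - 1) := by linarith
    _ = 1 / 2 * x ^ (k * m) := by ring
    _ ≤ 1 / 2 * Real.exp (((k * m : ℕ) + 1 : ℝ) * |s|) := by linarith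

/-- a positive function on a finite set has a positive lower bound -/
theorem lan_fin_min {α : Type*} (S : Set α) (hS : S.Finite) (f : α → ℝ)
    (hf : ∀ a ∈ S, 0 < f a) : ∃ L : ℝ, 0 < L ∧ ∀ a ∈ S, L ≤ f a := by
  rcases S.eq_empty_or_nonempty with h | h
  · exact ⟨1, one_pos, fun a ha => by simp [h] at ha⟩
  · obtain ⟨b, hb, hmin⟩ := hS.exists_minimalFor f S h
    refine ⟨f b, hf b hb, fun a ha => ?_⟩
    by_contra hlt
    push Not at hlt
    exact absurd (hmin ha hlt.le) (not_le.2 hlt)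

/-- a monic irreducible integer polynomial is the minimal polynomial of each of its roots -/
theorem lan_minpoly {P : ℤ[X]} (hP : P.Monic) (hPi : Irreducible P) {a : ℂ} (ha : a ∈ rts P) :
    minpoly ℤ a = P := by
  have h0 : aeval a P = 0 := by
    have := lan_mem_rts ha
    rw [ev, cp, eval_map] at this
    rw [aeval_def]
    exact this
  have hint : IsIntegral ℤ a := ⟨P, hP, h0⟩
  have hdvd : minpoly ℤ a ∣ P := minpoly.isIntegrallyClosed_dvd hint h0
  have hnu : ¬ IsUnit (minpoly ℤ a) := minpoly.not_isUnit ℤ a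
  obtain ⟨c, hc⟩ := hdvd
  have hcu : IsUnit c := (hPi.isUnit_or_isUnit hc).resolve_left hnu
  refine eq_of_monic_of_associated (minpoly.monic hint) hP ?_
  exact ⟨hcu.unit, by rw [IsUnit.unit_spec, ← hc]⟩

theorem stmt_LAN (hBAS : Stmt_BAS) (hRES : Stmt_RES) (hARC : Stmt_ARC) : Stmt_LAN := by
  intro θ h0 hpi
  obtain ⟨Q, hQ0, hQ⟩ := hARC θ h0 hpi
  obtain ⟨c, hc, hgr⟩ := lan_growth θ Q hQ
  -- the bad polynomials
  set S : Set ℤ[X] := {P | Adm θ P ∧ ∃ a ∈ rts P, ev Q a = 0} with hS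
  have hSf : S.Finite := by
    have hsub : S ⊆ (fun a : ℂ => minpoly ℤ a) '' (rts Q : Set ℂ) := by
      rintro P ⟨hP, a, ha, hQa⟩
      refine ⟨a, ?_, lan_minpoly hP.1 hP.2.1 ha⟩
      rw [Finset.mem_coe, rts, Multiset.mem_toFinset]
      refine mem_roots'.2 ⟨?_, hQa⟩
      rw [cp]
      exact (Polynomial.map_ne_zero_iff (RingHom.injective_int _)).2 hQ0
    exact (Set.Finite.image _ (Finset.finite_toSet _)).subset hsub
  have hlvpos : ∀ P : ℤ[X], Adm θ P → 0 < lv P := by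
    intro P hP
    have h1 := (hBAS P hP.1 hP.2.1).1
    exact div_pos (Real.log_pos hP.2.2.2.2) (by exact_mod_cast h1)
  obtain ⟨L1, hL1, hL1'⟩ := lan_fin_min S hSf lv fun P hP => hlvpos P hP.1
  refine ⟨min L1 (Real.log 2 / (2 * c)), lt_min hL1 (by
    have := Real.log_pos one_lt_two
    positivity), fun P hP => ?_⟩
  by_cases hb : ∃ a ∈ rts P, ev Q a = 0
  · exact (min_le_left _ _).trans (hL1' P ⟨hP, hb⟩)
  refine (min_le_right _ _).trans ?_
  push Not at hb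
  obtain ⟨hdeg, -, hcard, -, hMM⟩ := hBAS P hP.1 hP.2.1
  have hres := hRES P Q hP.1 hP.2.1 hb
  -- the roots are not zero
  have hne : ∀ a ∈ rts P, a ≠ 0 := by
    rintro a ha rfl
    have h1 := lan_minpoly hP.1 hP.2.1 ha
    have h2 := lan_mem_rts ha
    have h3 : X ∣ P := by
      rw [X_dvd_iff]
      have h4 : ev P 0 = (P.coeff 0 : ℂ) := by
        rw [ev, cp, ← coeff_zero_eq_eval_zero, coeff_map]
        simp
      rw [h4] at h2
      exact_mod_cast h2
    obtain ⟨d, hd⟩ := h3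
    have hXu : ¬ IsUnit (X : ℤ[X]) := not_isUnit_X
    have hdu : IsUnit d := (hP.2.1.isUnit_or_isUnit hd).resolve_left hXu
    have h5 : (X : ℤ[X]) = P :=
      eq_of_monic_of_associated monic_X hP.1 ⟨hdu.unit, by rw [IsUnit.unit_spec, ← hd]⟩
    exact hP.2.2.1 h5.symm
  have hX := hRES P X hP.1 hP.2.1 (fun a ha => by
    rw [ev, cp, map_X, eval_X]
    exact hne a ha)
  have hXsum : 0 ≤ ∑ a ∈ rts P, Real.log ‖a‖ := by
    rw [← Real.log_prod (fun a ha => (norm_pos_iff.2 (hne a ha)).ne')]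
    refine Real.log_nonneg ?_
    refine hX.trans_eq (Finset.prod_congr rfl fun a _ => ?_)
    rw [ev, cp, map_X, eval_X]
  have hprod : ∏ a ∈ rts P, ‖ev Q a‖ ≤
      ∏ a ∈ rts P, (1 / 2 * Real.exp (c * |Real.log ‖a‖|)) :=
    Finset.prod_le_prod (fun a _ => norm_nonneg _)
      fun a ha => hgr a (hne a ha) (hP.2.2.2.1 a ha)
  have hprod2 : ∏ a ∈ rts P, (1 / 2 * Real.exp (c * |Real.log ‖a‖|)) =
      (1 / 2 : ℝ) ^ P.natDegree * Real.exp (c * ∑ a ∈ rts P, |Real.log ‖a‖|) := by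
    rw [Finset.prod_mul_distrib, Finset.prod_const, hcard, ← Real.exp_sum, Finset.mul_sum]
  have hlog : 0 ≤ P.natDegree * Real.log (1 / 2) + c * ∑ a ∈ rts P, |Real.log ‖a‖| := by
    have h1 : (1 : ℝ) ≤ (1 / 2 : ℝ) ^ P.natDegree * Real.exp (c * ∑ a ∈ rts P, |Real.log ‖a‖|) :=
      hres.trans (hprod.trans_eq hprod2)
    have h2 := Real.log_nonneg h1
    rwa [Real.log_mul (by positivity) (Real.exp_pos _).ne', Real.log_pow, Real.log_exp] at h2
  have habs : ∑ a ∈ rts P, |Real.log ‖a‖| ≤ 2 * Real.log (MM P) := by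
    have h1 : ∀ a ∈ rts P, |Real.log ‖a‖| = 2 * Real.posLog ‖a‖ - Real.log ‖a‖ := by
      intro a _
      rw [Real.posLog]
      rcases le_total 0 (Real.log ‖a‖) with h | h
      · rw [abs_of_nonneg h, max_eq_right h]
        ring
      · rw [abs_of_nonpos h, max_eq_left h]
        ring
    rw [Finset.sum_congr rfl h1, Finset.sum_sub_distrib, ← Finset.mul_sum, ← hMM]
    linarith
  have hd : (0 : ℝ) < P.natDegree := by exact_mod_cast hdeg
  rw [lv, div_le_div_iff₀ (by positivity) hd]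
  have h2 : Real.log (1 / 2) = - Real.log 2 := by
    rw [one_div, Real.log_inv]
  rw [h2] at hlog
  nlinarith [mul_le_mul_of_nonneg_left habs hc.le]

end Pool.Agent.Work.MP_ce2d68_st.helper21
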